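import Pool.Agent.V11167.SigG

/-!
# `limsup M(n) = 4` for the equation `σ₂ = σₙ`
-/

namespace Pool.Agent.Results.MP_2b461e_nt.LimsupFour

open Filter Pool.Agent.V11167.Sig

/-- The limit superior of the minimal number of distinct entries is four; moreover the number of
`3 ≤ n < N` with `M(n) ≤ 3` is `O(N ^ (39 / 40))`, and `M(n) = 4` for infinitely many `n`. -/
theorem result :
    Filter.limsup (fun n => (M n : ℕ∞)) Filter.atTop = 4 ∧
    (∃ᶠ n in Filter.atTop, M n = 4) ∧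
    (∃ C : ℝ, ∀ N : ℕ,
      (((Finset.range N).filter (fun n => 3 ≤ n ∧ M n ≤ 3)).card : ℝ) ≤
        C * (N:ℝ) ^ ((39:ℝ) / 40)) :=
  ⟨limsup_four, Filter.frequently_atTop.2 fun n0 => by
    obtain ⟨n, h1, _, h2⟩ := freq_four n0
    exact ⟨n, h1, h2⟩, count_real⟩

end Pool.Agent.Results.MP_2b461e_nt.LimsupFour
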